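import Pool.Agent.TH800.AI.Wl

/-!
Assume the Riemann hypothesis.  If the spacings `d_n` of the zeta zeros are close to half-integers,
as the alternative hypothesis says, then the parities of the integers `2 d_n` define signs `σ_n`
with `σ_{n+1} = (-1) ^ (2 d_n) σ_n`.  Let `B_n = σ_n + … + σ_{n+L-1}` be the sum over a block.  We
show that, on the alternative hypothesis, the sums over consecutive blocks `B_n`, `B_{n+L}`, …,
`B_{n+(k-1)L}` have asymptotically the second order structure of white noise of variance `L`, up to
a slowly varying mean: the mean square of `∑ a_i B_{n+iL}` is `(∑ a_i² + o(1)) L` for all weights of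
sum zero, and for all weights and all centres `μ` the mean square of `∑ a_i B_{n+iL} - μ` is at
least `(∑ a_i² - o(1)) L`.  Every sequence of signs which violates one of these relations is
excluded: then a positive proportion of the spacings stays away from the half-integers of the
prescribed parity.

Idea of the proof.  Along a pattern, `e(y_n)` is the sign `σ_n` up to a slowly varying phase, so that
Montgomery's theorem at the frequencies `1 - u` gives the mean square of `∑ σ_n e(u y_n)` for small
`u ≠ 0`, with the sharp constant; the other side of `1` follows since the signs are real.  The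
kernel `4 sin² (π r u) (sin (π u) / (π u))²` of the increments `B_{n+rL} - B_n` vanishes at `u = 0`,
where no information is available.  It is approximated from both sides by finite families of
triangles, and Plancherel's theorem gives the mean square of the increments over windows in space.
The number variance in these windows is `O(log L)`, and large deviations for sums of consecutive
gaps allow to pass from means over space to means over the index, in both directions.  The general
weights follow from the increments by polarisation, and the lower bound for weights of arbitrary sum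
by comparing many translates.
-/

open Filter

namespace Pool.Agent.Results.MP_f0209c_nt.ParityWhiteNoise

/-- multiplicity of `s` as a zero of the Riemann zeta function (order of vanishing at `s`) -/
noncomputable def zmult (s : ℂ) : ℕ := analyticOrderNatAt riemannZeta s

/-- the number of nontrivial zeros of `ζ` with ordinate in `(0, t]`, with multiplicity -/
noncomputable def NZ (t : ℝ) : ℕ :=
  ∑ᶠ s ∈ {s : ℂ | riemannZeta s = 0 ∧ 0 < s.re ∧ s.re < 1 ∧ 0 < s.im ∧ s.im ≤ t}, zmult s

/-- for `j ≥ 1`: the `j`-th positive ordinate `γ j` of a nontrivial zero of `ζ`, the ordinates being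
listed in nondecreasing order and repeated according to multiplicity -/
noncomputable def γ (j : ℕ) : ℝ := sInf {t : ℝ | j ≤ NZ t}

/-- the normalised spacings `d_j = γ_{j+1} log γ_{j+1} / 2π - γ_j log γ_j / 2π` -/
noncomputable def d (j : ℕ) : ℝ :=
  (γ (j + 1) * Real.log (γ (j + 1)) - γ j * Real.log (γ j)) / (2 * Real.pi)

/-- the sum of the signs over the block of length `L` which starts at `n` -/
def B (σ : ℕ → ℝ) (L n : ℕ) : ℝ := ∑ j ∈ Finset.range L, σ (n + j)

open Pool.Agent.TH800.AH Pool.Agent.TH800.AI in
/-- On the Riemann hypothesis: for all `k`, all `δ > 0` and every `L ≥ L0(k, δ)` there are `ε > 0`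
and `N0` such that for all `N ≥ N0`, all sequences `σ` of signs, all weights `a_0, …, a_{k-1}` of
absolute value at most `1` and all real `μ` the following holds.  Suppose that
`∑_{n ≤ N} (∑_i a_i B_{n+iL} - μ)² ≤ (∑_i a_i² - δ) L N`, or that `∑_i a_i = 0` and
`∑_{n ≤ N} (∑_i a_i B_{n+iL})² ≥ (∑_i a_i² + δ) L N`.  Then for at least `ε N` of the `n ≤ N` the
spacing `d_n` has distance at least `ε` from every `m / 2`, `m` an integer which is even if
`σ_{n+1} = σ_n` and odd if `σ_{n+1} ≠ σ_n`. -/
theorem result (RH : RiemannHypothesis) (k : ℕ) (δ : ℝ) (hδ : 0 < δ) :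
    ∃ L0 : ℕ, ∀ L : ℕ, L0 ≤ L → ∃ ε : ℝ, 0 < ε ∧ ∃ N0 : ℕ, ∀ N : ℕ, N0 ≤ N →
      ∀ σ : ℕ → ℝ, (∀ n, σ n = 1 ∨ σ n = -1) → ∀ a : ℕ → ℝ, (∀ i, |a i| ≤ 1) → ∀ μ : ℝ,
        (∑ n ∈ Finset.Icc 1 N, (∑ i ∈ Finset.range k, a i * B σ L (n + i * L) - μ) ^ 2 ≤
            (∑ i ∈ Finset.range k, a i ^ 2 - δ) * (L * N) ∨
          ∑ i ∈ Finset.range k, a i = 0 ∧
            (∑ i ∈ Finset.range k, a i ^ 2 + δ) * (L * N) ≤
              ∑ n ∈ Finset.Icc 1 N, (∑ i ∈ Finset.range k, a i * B σ L (n + i * L)) ^ 2) →
        ε * N ≤ ({n : ℕ | 1 ≤ n ∧ n ≤ N ∧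
          ∀ m : ℤ, (Even m ↔ σ (n + 1) = σ n) → ε ≤ |d n - m / 2|}.ncard : ℝ) := by
  have hdel : ∀ n, H177.Lat.del n = d n := fun n => rfl
  obtain ⟨L1, hL1, h1⟩ := wn RH (δ / 2) (by positivity) k
  obtain ⟨L2, hL2, h2⟩ := wl RH (δ / 2) (by positivity) k
  refine ⟨max L1 L2, fun L hL => ?_⟩
  have hL8 : (8 : ℝ) ≤ L := by exact_mod_cast hL1.trans ((le_max_left _ _).trans hL)
  have hLp : (0 : ℝ) < L := by linarith
  obtain ⟨ε1, hε1, N1, hN1⟩ := h1 L ((le_max_left _ _).trans hL)
  obtain ⟨ε2, hε2, N2, hN2⟩ := h2 L ((le_max_right _ _).trans hL)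
  set ε : ℝ := min ε1 ε2 with hεd
  have hε : 0 < ε := lt_min hε1 hε2
  refine ⟨ε, hε, max 1 (max N1 N2), fun N hN σ hσ a ha μ hyp => ?_⟩
  have hNpos : (0 : ℝ) < N := by
    have : 1 ≤ N := (le_max_left _ _).trans hN
    exact_mod_cast this
  have hX : (0 : ℝ) < L * N := by positivity
  have hBe : ∀ n, B σ L n = BB σ L n := fun n => rfl
  have hEN : EN σ ε N ≤ ({n : ℕ | 1 ≤ n ∧ n ≤ N ∧
          ∀ m : ℤ, (Even m ↔ σ (n + 1) = σ n) → ε ≤ |d n - m / 2|}.ncard : ℝ) := by
    unfold EN
    have hsub : {n : ℕ | 1 ≤ n ∧ n ≤ N ∧ Ex σ ε n} ⊆ {n : ℕ | 1 ≤ n ∧ n ≤ N ∧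
        ∀ k : ℤ, (Even k ↔ σ (n + 1) = σ n) → ε ≤ |d n - k / 2|} := by
      rintro n ⟨g1, g2, g3⟩
      refine ⟨g1, g2, fun k hk => ?_⟩
      unfold Ex al at g3
      rw [hdel] at g3
      rcases hσ n with h1 | h1 <;> rcases hσ (n + 1) with h2 | h2
      · obtain ⟨m, rfl⟩ := hk.2 (by rw [h1, h2])
        have := g3 m
        rw [h1, h2] at this
        push_cast
        convert this using 2
        ring
      · have hodd : ¬ Even k := fun h => by
          have := hk.1 h
          rw [h1, h2] at this
          norm_num at this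
        rw [Int.not_even_iff_odd] at hodd
        obtain ⟨m, rfl⟩ := hodd
        have := g3 m
        rw [h1, h2] at this
        push_cast
        convert this using 2
        ring
      · have hodd : ¬ Even k := fun h => by
          have := hk.1 h
          rw [h1, h2] at this
          norm_num at this
        rw [Int.not_even_iff_odd] at hodd
        obtain ⟨m, rfl⟩ := hodd
        have := g3 (m + 1)
        rw [h1, h2] at this
        push_cast at this ⊢
        convert this using 2
        ring
      · obtain ⟨m, rfl⟩ := hk.2 (by rw [h1, h2])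
        have := g3 m
        rw [h1, h2] at this
        push_cast
        convert this using 2
        ring
    have hfin : {n : ℕ | 1 ≤ n ∧ n ≤ N ∧
        ∀ k : ℤ, (Even k ↔ σ (n + 1) = σ n) → ε ≤ |d n - k / 2|}.Finite :=
      (Set.finite_Iic N).subset fun n hn => hn.2.1
    exact_mod_cast Set.ncard_le_ncard hsub hfin
  rcases hyp with hlow | ⟨hsum, hup⟩
  · -- the lower bound
    rcases hN2 N (((le_max_right _ _).trans (le_max_right _ _)).trans hN) σ hσ with g | g
    · refine le_trans ?_ (g.trans ((EN_mono (min_le_right _ _) N).trans hEN))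
      exact mul_le_mul_of_nonneg_right (min_le_right _ _) hNpos.le
    · exfalso
      have hkL : (0 : ℝ) ≤ k * L := by positivity
      set m0 : ℝ := max (-(k * L)) (min (k * L) μ) with hm0
      have hm1 : |m0| ≤ k * L := abs_le.2 ⟨le_max_left _ _,
        max_le (by linarith) (min_le_left _ _)⟩
      have hcmp : ∀ n, (ZZ σ a k L n - m0) ^ 2 ≤
          (∑ i ∈ Finset.range k, a i * B σ L (n + i * L) - μ) ^ 2 := by
        intro n
        have e1 : ∑ i ∈ Finset.range k, a i * B σ L (n + i * L) = ZZ σ a k L n := rfl
        rw [e1]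
        obtain ⟨hb2, hb3⟩ := abs_le.1 (ZZ_abs hσ a ha k L n)
        rcases le_total μ (k * L) with h1 | h1
        · rcases le_total (-(k * L : ℝ)) μ with h2 | h2
          · have : m0 = μ := by rw [hm0, min_eq_right h1, max_eq_right h2]
            rw [this]
          · have : m0 = -(k * L) := by rw [hm0, min_eq_right h1, max_eq_left h2]
            rw [this]
            nlinarith
        · have : m0 = k * L := by rw [hm0, min_eq_left h1, max_eq_right (by linarith)]
          rw [this]
          nlinarith
      have h3 := g a ha m0 hm1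
      have h4 := Finset.sum_le_sum (s := Finset.Icc 1 N) fun n _ => hcmp n
      have h5 := (h3.trans h4).trans hlow
      have h6 : δ / 2 * (L * N) ≤ 0 := by linarith
      have h7 : 0 < δ / 2 * (L * N) := by positivity
      linarith
  · -- the upper bound
    rcases hN1 N (((le_max_left _ _).trans (le_max_right _ _)).trans hN) σ hσ with g | g
    · refine le_trans ?_ (g.trans ((EN_mono (min_le_left _ _) N).trans hEN))
      exact mul_le_mul_of_nonneg_right (min_le_left _ _) hNpos.le
    · exfalso
      have h3 := (abs_le.1 (g a ha hsum)).2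
      have e1 : ∑ n ∈ Finset.Icc 1 N, (∑ i ∈ Finset.range k, a i * B σ L (n + i * L)) ^ 2 =
          ∑ n ∈ Finset.Icc 1 N, (∑ i ∈ Finset.range k, a i * BB σ L (n + i * L)) ^ 2 := rfl
      rw [e1] at hup
      have h6 : δ / 2 * (L * N) ≤ 0 := by linarith
      have h7 : 0 < δ / 2 * (L * N) := by positivity
      linarith

end Pool.Agent.Results.MP_f0209c_nt.ParityWhiteNoise
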